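import Pool.Agent.Helper83.OD.Defs

/-!
# Étale motivic Borel-Moore homology of arithmetic schemes in the weights `≤ 0`: the setting

The schemes are Mathlib's schemes. The groups `T.BM X m j = H_j(X_et, ℤᶜ(-m))` and the restriction maps to open
subschemes are data; their known properties are listed in `Theory.Standard`. Facts about schemes themselves
are closed propositions, listed in `Geometry`. This extends the setting of `Pool/Agent/Helper83/AS/Defs.lean`
(by the restriction maps); `IsResolution` is defined in `Pool/Agent/Helper83/OD/Defs.lean`.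
-/

set_option autoImplicit false

open CategoryTheory CategoryTheory.Limits AlgebraicGeometry

namespace Pool.Agent.Helper83.BO

open Pool.Agent.Helper83.AS (FiniteType Arithmetic IsProjective product space)
open Pool.Agent.Helper83.OD (IsDivisible IsTorsionFree FiniteTorsion IsExact Subset Imaginary
  IsResolution)

universe v

/-- Facts about schemes (closed propositions): those of `AS.Geometry`, and alterations with a theorem of
Bertini. -/
structure Geometry : Prop extends AS.Geometry where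
  /-- alterations (de Jong) with a theorem of Bertini -/
  resolution : ∀ {X : Scheme.{0}} {d : ℕ}, Arithmetic X d → ∀ W : Subset X, IsClosed W → W ≠ Set.univ →
    ∃ (X' : Scheme.{0}) (f : X' ⟶ X) (r : ℕ) (E : _root_.Fin r → Subset X') (Y : Subset X'),
      IsResolution d W f r E Y ∧ IsProjective X'

/-- Data: the étale motivic Borel-Moore homology groups `BM X m j = H_j(X_et, ℤᶜ(-m))` of the separated
schemes of finite type over `ℤ`, in the weights `-m ≤ 0` (see `AS.Theory`), with the restriction maps to open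
subschemes. If `X` is regular of dimension `d`, then `H_j(X_et, ℤᶜ(-m)) = H²ᵈ⁻ʲ(X_et, ℤ(d + m))`. -/
structure Theory extends AS.Theory.{v} where
  res : ∀ {X U : Scheme.{0}} (u : U ⟶ X) [IsOpenImmersion u] (m : ℕ) (j : ℤ), BM X m j →+ BM U m j

variable (T : Theory.{v})

/-- the homomorphisms `H_j(X, ℤᶜ(-m)) ⟶ H_k(Y, ℤᶜ(-m))` -/
abbrev Theory.Hom (X Y : Scheme.{0}) (m : ℕ) (j k : ℤ) : Type v := T.BM X m j →+ T.BM Y m k

/-- the restriction maps are functorial -/
def Theory.Functorial : Prop :=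
  ∀ {X U V : Scheme.{0}} (u : U ⟶ X) (v : V ⟶ U) [IsOpenImmersion u] [IsOpenImmersion v] (m : ℕ) (j : ℤ),
    T.res (v ≫ u) m j = (T.res v m j).comp (T.res u m j)

/-- the localization sequence
`⋯ → H_{j+1}(X) → H_{j+1}(U) → H_j(Z) → H_j(X) → H_j(U) → ⋯` of a closed subscheme `Z` and its open complement `U` -/
def Theory.Localization : Prop :=
  ∀ {X Z U : Scheme.{0}} (i : Z ⟶ X) (u : U ⟶ X) [IsOpenImmersion u], FiniteType X → IsClosedImmersion i →
    IsCompl (OD.image i) (OD.image u) → ∀ m : ℕ,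
    ∃ (push : ∀ j : ℤ, T.Hom Z X m j j) (δ : ∀ j : ℤ, T.Hom U Z m (j + 1) j),
      ∀ j : ℤ, IsExact (push j) (T.res u m j) ∧ IsExact (T.res u m (j + 1)) (δ j) ∧ IsExact (δ j) (push j)

/-- the groups of a disjoint union -/
def Theory.Additive : Prop :=
  ∀ {X U V : Scheme.{0}} (u : U ⟶ X) (v : V ⟶ X) [IsOpenImmersion u] [IsOpenImmersion v], FiniteType X →
    IsCompl (OD.image u) (OD.image v) → ∀ (m : ℕ) (j : ℤ),
    Function.Bijective fun x : T.BM X m j => (T.res u m j x, T.res v m j x)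

/-- the element `x` of `H_j(X, ℤᶜ(-m))` is zero on the open subscheme `U` -/
abbrev Theory.ZeroOn {X : Scheme.{0}} {m : ℕ} {j : ℤ} (x : T.BM X m j) (U : X.Opens) : Prop := T.res U.ι m j x = 0

/-- pull-back and push-forward along an alteration `f : X' ⟶ X`: their composition is the multiplication by
the degree; the pull-back is compatible with the restriction to open subschemes -/
def Theory.Alteration : Prop :=
  ∀ {X X' : Scheme.{0}} {d : ℕ} (f : X' ⟶ X), Arithmetic X d → Arithmetic X' d → Surjective f → ∀ (m : ℕ) (j : ℤ),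
    ∃ (N : ℕ) (pull : T.Hom X X' m j j) (push : T.Hom X' X m j j), 0 < N ∧
      ∀ x, push (pull x) = N • x ∧ ∀ U : X.Opens, T.ZeroOn x U → T.ZeroOn (pull x) (f ⁻¹ᵁ U)

/-- in the degrees `i > n`, `n = d + m` (`j + m < d`), the rational group `Hⁱ(k(X), ℚ(n))` of the function
field is zero: every element of `H_j(X, ℤᶜ(-m))` has a multiple which is zero on a nonempty open subscheme -/
def Theory.Generic : Prop :=
  ∀ {X : Scheme.{0}} {d : ℕ}, Arithmetic X d → ∀ (m : ℕ) (j : ℤ), j + m < d → ∀ x : T.BM X m j,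
    ∃ N : ℕ, 0 < N ∧ ∃ U : X.Opens, (U : Subset X).Nonempty ∧ T.ZeroOn (N • x) U

/-- Artin vanishing in the weights `-m < 0`: an affine open subscheme `U` of a regular scheme `X` of dimension
`d` over the Gaussian integers has
`H_j(U; ℤ/ℓ(-m)) = H²ᵈ⁻ʲ(U[1/ℓ]_et, μ_ℓ^(d + m)) = 0` for `2 d - j > d + 1`, that is `j ≤ d - 2`; so the group
`H_j(U, ℤᶜ(-m))` is divisible for `j ≤ d - 2` and torsion free for `j ≤ d - 3` -/
def Theory.Artin : Prop :=
  ∀ {X : Scheme.{0}} {d : ℕ}, Arithmetic X d → Imaginary X → ∀ U : X.Opens, IsAffineOpen U →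
    ∀ m : ℕ, 0 < m → ∀ j : ℤ, (j + 2 ≤ d → IsDivisible (T.BM U m j)) ∧ (j + 3 ≤ d → IsTorsionFree (T.BM U m j))

/-- the projective bundle formula `H_j(ℙ^N × X, ℤᶜ(-m)) = ⊕_{0 ≤ k ≤ N} H_{j-2k}(X, ℤᶜ(-m-k))` -/
def Theory.Bundle : Prop :=
  ∀ {X : Scheme.{0}} {d : ℕ}, Arithmetic X d → ∀ (N m : ℕ) (j : ℤ),
    Nonempty (T.BM (product N X) m j ≃+ ((k : Fin (N + 1)) → T.BM X (m + k) (j - 2 * (k : ℕ))))

/-- The known properties of the groups which are used. -/
structure Theory.Standard : Prop where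
  empty : ∀ (X : Scheme.{0}), IsEmpty X → ∀ (m : ℕ) (j : ℤ), Subsingleton (T.BM X m j)
  functorial : T.Functorial
  localization : T.Localization
  additive : T.Additive
  alteration : T.Alteration
  transfer : T.Transfer
  generic : T.Generic
  artin : T.Artin
  /-- the groups with coefficients `ℤ/N` are finite -/
  torsion : ∀ {X : Scheme.{0}}, FiniteType X → ∀ (m : ℕ) (j : ℤ), FiniteTorsion (T.BM X m j)
  rational : T.RationalAbove
  /-- for a regular proper scheme `Z` of dimension `d`, in the weights `n > d`, the groups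
  `Hⁱ(Z_et, ℤ(n)) = Hⁱ⁻¹(Z_et, ℚ/ℤ(n))`, `i > 2 n`, are finite -/
  high : ∀ {Z : Scheme.{0}} {d : ℕ}, Arithmetic Z d → ∀ m : ℕ, 0 < m → ∀ j : ℤ, 2 * m + j < 0 →
    Finite (T.BM Z m j)
  /-- for a regular proper scheme `Z` of dimension `d`, the groups `Hⁱ(Z_et, ℤ(d))`, `i > 2 d`, are torsion
  groups -/
  top : ∀ {Z : Scheme.{0}} {d : ℕ}, Arithmetic Z d → ∀ j < 0, ∀ x : T.BM Z 0 j, ∃ N : ℕ, 0 < N ∧ N • x = 0
  /-- projective spaces over `ℤ`, in the weight `dim = M + 1` and the degrees `i = 2 (M + 1) - j ≤ 2 (M + 1)` -/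
  projective : ∀ (M : ℕ) (j : ℤ), 0 ≤ j → AddGroup.FG (T.BM (space M) 0 j)
  bundle : T.Bundle
  blowup : T.Blowup

end Pool.Agent.Helper83.BO
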