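import Pool.Agent.Helper83.OD.Hom
import Pool.Agent.Helper83.BO.Defs
import Pool.Agent.Helper83.AS.Weights

/-! # Torsion, divisibility and finite generation -/

set_option autoImplicit false

open CategoryTheory CategoryTheory.Limits AlgebraicGeometry TopologicalSpace Topology

namespace Pool.Agent.Helper83.BO

open Pool.Agent.Helper83.AS (FiniteType Arithmetic product finite_mid finite_of_transfer)
open Pool.Agent.Helper83.OD (Long Add Inv On tors_mid)

universe v

/-- `H_q(X)` is a torsion group -/
def Theory.Tors (T : Theory.{v}) (m : ℕ) (q : ℤ) (X : Scheme.{0}) : Prop := ∀ x : T.BM X m q, ∃ N : ℕ, 0 < N ∧ N • x = 0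

/-- `H_q(X)` is finitely generated -/
def Theory.FgAt (T : Theory.{v}) (m : ℕ) (q : ℤ) (X : Scheme.{0}) : Prop := Module.Finite ℤ (T.BM X m q)

/-- `H_q(X)` is divisible -/
def Theory.Div (T : Theory.{v}) (m : ℕ) (q : ℤ) (X : Scheme.{0}) : Prop :=
  ∀ N : ℕ, 0 < N → Function.Surjective fun x : T.BM X m q => N • x

variable {T : Theory.{v}} (hT : T.Standard) {m : ℕ}

include hT

theorem tors_long : Long (T.Tors m) where
  empty q X hX x := by
    have := hT.empty X hX m q
    exact ⟨1, one_pos, Subsingleton.elim _ _⟩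
  left i u hX hi hu hc q h h' := by
    obtain ⟨push, δ, hex⟩ := hT.localization i u hX hi hc m
    exact tors_mid (hex q).2.2 h h'
  mid i u hX hi hu hc q h h' := by
    obtain ⟨push, δ, hex⟩ := hT.localization i u hX hi hc m
    exact tors_mid (hex q).1 h h'
  right i u hX hi hu hc q h h' := by
    obtain ⟨push, δ, hex⟩ := hT.localization i u hX hi hc m
    obtain ⟨j, rfl⟩ : ∃ j, q = j + 1 := ⟨q - 1, by ring⟩
    rw [add_sub_cancel_right] at h'
    exact tors_mid (hex j).2.1 h h'

theorem fg_long : Long (T.FgAt m) where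
  empty q X hX := by
    have := hT.empty X hX m q
    exact Module.Finite.of_finite
  left i u hX hi hu hc q h h' := by
    obtain ⟨push, δ, hex⟩ := hT.localization i u hX hi hc m
    exact finite_mid (hex q).2.2 h h'
  mid i u hX hi hu hc q h h' := by
    obtain ⟨push, δ, hex⟩ := hT.localization i u hX hi hc m
    exact finite_mid (hex q).1 h h'
  right i u hX hi hu hc q h h' := by
    obtain ⟨push, δ, hex⟩ := hT.localization i u hX hi hc m
    obtain ⟨j, rfl⟩ : ∃ j, q = j + 1 := ⟨q - 1, by ring⟩
    rw [add_sub_cancel_right] at h'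
    exact finite_mid (hex j).2.1 h h'

theorem tors_add (q : ℤ) : Add (T.Tors m q) where
  inv := (tors_long hT).inv q
  empty := (tors_long hT).empty q
  add u v _ _ hX hc hU hV x := by
    obtain ⟨N, hN, h1⟩ := hU (T.res u m q x)
    obtain ⟨M, hM, h2⟩ := hV (T.res v m q x)
    refine ⟨N * M, Nat.mul_pos hN hM, (hT.additive u v hX hc m q).1 ?_⟩
    simp only [map_nsmul, map_zero, Prod.mk.injEq]
    exact ⟨by rw [mul_nsmul, h1, smul_zero], by rw [mul_nsmul', h2, smul_zero]⟩

theorem fg_add (q : ℤ) : Add (T.FgAt m q) where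
  inv := (fg_long hT).inv q
  empty := (fg_long hT).empty q
  add u v _ _ hX hc hU hV := by
    let g : T.BM _ m q →+ T.BM _ m q × T.BM _ m q := (T.res u m q).prod (T.res v m q)
    have hg : Function.Bijective g := hT.additive u v hX hc m q
    have h1 : Module.Finite ℤ (T.BM _ m q) := hU
    have h2 : Module.Finite ℤ (T.BM _ m q) := hV
    exact Module.Finite.equiv (AddEquiv.ofBijective g hg).symm.toIntLinearEquiv

/-- surjective closed immersions -/
theorem exists_equiv {X Z : Scheme.{0}} (i : Z ⟶ X) (hX : FiniteType X) (hi : IsClosedImmersion i)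
    (hs : Function.Surjective i) (q : ℤ) : Nonempty (T.BM Z m q ≃+ T.BM X m q) := by
  have hc : IsCompl (Set.range i) (Set.range (⊥ : X.Opens).ι) := by
    rw [hs.range_eq, Scheme.Opens.range_ι]
    exact isCompl_top_bot
  have hE : IsEmpty ((⊥ : X.Opens) : Scheme.{0}) := ⟨fun x => x.2⟩
  obtain ⟨push, δ, hex⟩ := hT.localization i (⊥ : X.Opens).ι hX hi hc m
  have h1 := hT.empty _ hE m q
  have h2 := hT.empty _ hE m (q + 1)
  refine ⟨AddEquiv.ofBijective (push q) ⟨?_, ?_⟩⟩
  · rw [injective_iff_map_eq_zero]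
    intro x hx
    obtain ⟨y, rfl⟩ := ((hex q).2.2 x).1 hx
    rw [Subsingleton.elim y 0, map_zero]
  · intro x
    exact ((hex q).1 x).1 (Subsingleton.elim _ _)

theorem div_add (q : ℤ) : Add (T.Div m q) where
  inv := by
    intro X Z i hX hi hs
    obtain ⟨e⟩ := exists_equiv hT i hX hi hs q
    constructor
    · intro h N hN x
      obtain ⟨y, hy⟩ := h N hN (e.symm x)
      exact ⟨e y, by
        change N • e y = x
        rw [← map_nsmul]
        exact (congrArg e hy).trans (e.apply_symm_apply x)⟩
    · intro h N hN x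
      obtain ⟨y, hy⟩ := h N hN (e x)
      exact ⟨e.symm y, by
        change N • e.symm y = x
        rw [← map_nsmul]
        exact (congrArg e.symm hy).trans (e.symm_apply_apply x)⟩
  empty X hX N _ x := by
    have := hT.empty X hX m q
    exact ⟨0, Subsingleton.elim _ _⟩
  add u v _ _ hX hc hU hV N hN x := by
    obtain ⟨y, hy⟩ := hU N hN (T.res u m q x)
    obtain ⟨z, hz⟩ := hV N hN (T.res v m q x)
    obtain ⟨w, hw⟩ := (hT.additive u v hX hc m q).2 (y, z)
    refine ⟨w, (hT.additive u v hX hc m q).1 ?_⟩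
    have h1 : T.res u m q w = y := congrArg Prod.fst hw
    have h2 : T.res v m q w = z := congrArg Prod.snd hw
    simp only [map_nsmul, h1, h2]
    exact Prod.ext hy hz

end Pool.Agent.Helper83.BO
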