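import Pool.Agent.Helper83.BO.Step
import Pool.Agent.Helper83.AS.Main

/-! # One group for every scheme -/

set_option autoImplicit false

open CategoryTheory CategoryTheory.Limits AlgebraicGeometry TopologicalSpace Topology

namespace Pool.Agent.Helper83.BO

open Pool.Agent.Helper83.AS (FiniteType Arithmetic IsProjective Rational product space finite_mid
  finite_of_transfer fg_iff)

universe v

variable {T : Theory.{v}}

/-- the setting of `AS` -/
theorem Theory.Standard.toAS (hT : T.Standard) : T.toTheory.Standard where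
  empty := hT.empty
  localization := by
    intro X Z U i u hX hi hu hc m
    obtain ⟨push, δ, hex⟩ := hT.localization i u hX hi hc m
    exact ⟨push, fun j => T.res u m j, δ, hex⟩
  transfer := hT.transfer
  torsion := fun hX m j N hN => (hT.torsion hX m j N hN).1
  rational := hT.rational
  high := hT.high
  top := hT.top
  projective := hT.projective
  bundle := by
    intro X d hX N j
    obtain ⟨e⟩ := hT.bundle hX N 0 j
    have h : ∀ (k : _root_.Fin (N + 1)), T.BM X (0 + k) (j - 2 * (k : ℕ)) ≃+ T.BM X k (j - 2 * (k : ℕ)) :=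
      fun k => by rw [Nat.zero_add]
    exact ⟨e.trans (AddEquiv.piCongrRight h)⟩
  blowup := hT.blowup

variable (hT : T.Standard)

include hT

/-- a summand of the groups of `ℙ^N × X` -/
theorem fg_of_product {X : Scheme.{0}} {d : ℕ} (hX : Arithmetic X d) (N m k : ℕ) (hk : k ≤ N) {j j' : ℤ}
    (hj : j' - 2 * (k : ℕ) = j) (h : T.FgAt m j' (product N X)) : T.FgAt (m + k) j X := by
  subst hj
  obtain ⟨e⟩ := hT.bundle hX N m j'
  have h1 : Module.Finite ℤ (T.BM (product N X) m j') := h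
  have h2 : Module.Finite ℤ ((k : _root_.Fin (N + 1)) → T.BM X (m + k) (j' - 2 * (k : ℕ))) :=
    Module.Finite.equiv e.toIntLinearEquiv
  have h3 : Function.Surjective (Pi.evalAddMonoidHom
      (fun k : _root_.Fin (N + 1) => T.BM X (m + k) (j' - 2 * (k : ℕ))) ⟨k, by omega⟩).toIntLinearMap :=
    Function.surjective_eval _
  exact Module.Finite.of_surjective _ h3

/-- the weight `-1` -/
theorem fg_one (hG : Geometry)
    (h : ∀ (c : ℕ) (C : Scheme.{0}), Arithmetic C c → IsProjective C → T.FgAt 1 ((c : ℤ) - 2) C) :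
    ∀ (d : ℕ) (j : ℤ) (X : Scheme.{0}), Arithmetic X d → T.FgAt 1 j X := by
  intro d
  induction d using Nat.strong_induction_on with
  | _ d ih =>
    intro j X hX
    rcases lt_or_ge j (-2) with hj | hj
    · have h1 : Finite (T.BM X 1 j) := hT.high hX 1 one_pos j (by push_cast; omega)
      exact Module.Finite.of_finite (M := T.BM X 1 j)
    obtain ⟨c, hc⟩ := Int.eq_ofNat_of_zero_le (show 0 ≤ j + 2 by omega)
    obtain rfl : j = (c : ℤ) - 2 := by omega
    rcases le_or_gt d c with hd | hd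
    · obtain ⟨N, rfl⟩ := Nat.exists_eq_add_of_le hd
      have h1 : T.FgAt 1 (((d + N : ℕ) : ℤ) - 2) (product N X) :=
        fg_of_projective hT hG (hG.product hX N) fun Z hZ hZp => h (d + N) Z hZ hZp
      exact fg_of_product hT hX N 1 0 (Nat.zero_le _) (by push_cast; ring) h1
    · exact fg_step hT one_pos hG hX (fun e he q _ _ Z hZ => ih e he q Z hZ) (by omega) (by push_cast; omega)

/-- all negative weights -/
theorem fg_neg (hG : Geometry)
    (h : ∀ (c : ℕ) (C : Scheme.{0}), Arithmetic C c → IsProjective C → T.FgAt 1 ((c : ℤ) - 2) C)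
    (X : Scheme.{0}) (d : ℕ) (hX : Arithmetic X d) : T.toTheory.Fg X := by
  intro m hm j
  obtain ⟨k, rfl⟩ := Nat.exists_eq_add_of_le hm
  exact fg_of_product hT hX k 1 k le_rfl (j' := j + 2 * k) (by ring)
    (fg_one hT hG h (d + k) (j + 2 * k) _ (hG.product hX k))

/-- all schemes of finite type -/
theorem negative_all (hG : Geometry)
    (h : ∀ (c : ℕ) (C : Scheme.{0}), Arithmetic C c → IsProjective C → T.FgAt 1 ((c : ℤ) - 2) C)
    {X : Scheme.{0}} (hX : FiniteType X) : T.Negative X := by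
  obtain ⟨D, hD⟩ := hX.exists_dim
  exact (AS.negative_iff hT.toAS hX).2 (AS.fg_of_arithmetic hT.toAS hG.toGeometry
    (fun e _ Y hY _ => fg_neg hT hG h Y e hY) X hX hD)

omit hT in
theorem fg_H {X : Scheme.{0}} {d n m : ℕ} {i j : ℤ} (h1 : n - d = m) (h2 : 2 * (d : ℤ) - i = j) :
    AddGroup.FG (T.H X d n i) ↔ T.FgAt m j X := AS.fg_H h1 h2

/-- the centre of a blow-up -/
theorem fg_centre (hG : Geometry) {C : Scheme.{0}} {c : ℕ} (hC : Arithmetic C c) (hCp : IsProjective C)
    (h : ∀ (Y : Scheme.{0}) (d : ℕ), Rational C c Y d → c + 2 ≤ d → AddGroup.FG (T.H Y d d (2 * d - c))) :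
    T.FgAt 1 ((c : ℤ) - 2) C := by
  obtain ⟨N₀, hN₀⟩ := hCp.exists_embedding
  obtain ⟨i, hi⟩ := hN₀ (N₀ + c + 1) (by omega)
  obtain ⟨Y, f, hf⟩ := hG.exists_blowup i hi hC (by omega)
  have h1 := h Y (N₀ + c + 1 + 1) ⟨N₀ + c + 1, i, f, rfl, by omega, hi, hf⟩ (by omega)
  have h2 : Module.Finite ℤ (T.BM Y 0 c) := (fg_H (by omega) (by ring)).1 h1
  obtain ⟨δ, g, k, hδg, hgk⟩ := hT.blowup i f hi hC (by omega) hf c
  have h4 : Module.Finite ℤ (T.BM (space (N₀ + c + 1)) 0 (c + 1)) := fg_iff.1 (hT.projective _ (c + 1) (by omega))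
  have h5 := finite_mid hδg h4 h2
  have h6 : Function.Surjective (Pi.evalAddMonoidHom
      (fun k : _root_.Fin (N₀ + c + 1 - c) => T.BM C (k + 1) (c - 2 * ((k : ℕ) + 1))) ⟨0, by omega⟩).toIntLinearMap :=
    Function.surjective_eval _
  have h7 : Module.Finite ℤ (T.BM C (0 + 1) (c - 2 * (((0 : ℕ) : ℤ) + 1))) :=
    Module.Finite.of_surjective _ h6
  have h8 : (c : ℤ) - 2 * (((0 : ℕ) : ℤ) + 1) = (c : ℤ) - 2 := by push_cast; ring
  rw [h8] at h7
  exact h7

end Pool.Agent.Helper83.BO
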