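import Pool.Agent.Helper83.BO.Hom

/-! # The inductive step in negative weights -/

set_option autoImplicit false

open CategoryTheory CategoryTheory.Limits AlgebraicGeometry TopologicalSpace Topology

namespace Pool.Agent.Helper83.BO

open Pool.Agent.Helper83.AS (FiniteType Arithmetic IsProjective product finite_mid finite_of_transfer)
open Pool.Agent.Helper83.OD (Long Add Inv On on_open on_iUnion exists_closed IsResolution Imaginary
  subsingleton_of_divisible fg_of_map finite_of_directed)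

universe v

variable {T : Theory.{v}}

theorem res_congr {X U : Scheme.{0}} {u u' : U ⟶ X} (h : u = u') [IsOpenImmersion u] [IsOpenImmersion u'] (m : ℕ) (j : ℤ)
    (x : T.BM X m j) : T.res u m j x = T.res u' m j x := by
  subst h
  rfl

theorem Imaginary.of_hom {X Y : Scheme.{0}} (h : Imaginary X) (f : Y ⟶ X) : Imaginary Y := by
  obtain ⟨g⟩ := h
  exact ⟨f ≫ g⟩

variable (hT : T.Standard) {m : ℕ}

include hT

/-- restriction in two steps -/
theorem res_eq_zero {X : Scheme.{0}} {O V : X.Opens} (h : O ≤ V) {j : ℤ} {x : T.BM X m j}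
    (hx : T.res V.ι m j x = 0) : T.res O.ι m j x = 0 := by
  have h1 : T.res O.ι m j x = T.res (X.homOfLE h) m j (T.res V.ι m j x) := by
    rw [← AddMonoidHom.comp_apply, ← hT.functorial]
    exact res_congr (by simp) m j x
  rw [h1, hx, map_zero]

theorem res_res_eq_zero {X : Scheme.{0}} {O U : X.Opens} {j : ℤ} {x : T.BM X m j}
    (hx : T.res O.ι m j x = 0) : T.res (U.ι ⁻¹ᵁ O).ι m j (T.res U.ι m j x) = 0 := by
  rw [← AddMonoidHom.comp_apply, ← hT.functorial]
  let v : ((U.ι ⁻¹ᵁ O : U.toScheme.Opens) : Scheme.{0}) ⟶ O := IsOpenImmersion.lift O.ι ((U.ι ⁻¹ᵁ O).ι ≫ U.ι) (by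
    rintro _ ⟨y, rfl⟩
    rw [Scheme.Opens.range_ι]
    exact y.2)
  have hv : v ≫ O.ι = (U.ι ⁻¹ᵁ O).ι ≫ U.ι := IsOpenImmersion.lift_fac _ _ _
  have h1 : IsOpenImmersion (v ≫ O.ι) := by rw [hv]; infer_instance
  have h2 : IsOpenImmersion v := IsOpenImmersion.of_comp v O.ι
  have h3 : T.res ((U.ι ⁻¹ᵁ O).ι ≫ U.ι) m j x = T.res (v ≫ O.ι) m j x := res_congr hv.symm m j x
  rw [h3, hT.functorial, AddMonoidHom.comp_apply, hx, map_zero]

/-- the strata without the ample divisor: divisible and finitely generated, so zero -/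
theorem tors_stratum (hm : 0 < m) {X X' : Scheme.{0}} {d : ℕ} {W : Set X} {f : X' ⟶ X} {r : ℕ}
    {E : _root_.Fin r → Set X'}
    {Y : Set X'} (h : IsResolution d W f r E Y) {U : X'.Opens} (hU : IsAffineOpen U) (hUY : (U : Set X') = Yᶜ)
    {j : ℤ} (ih : ∀ e < d, ∀ q : ℤ, q ≤ j → q + 2 ≤ e → ∀ Z : Scheme.{0}, Arithmetic Z e → T.FgAt m q Z)
    (I : Finset (_root_.Fin r)) (hI : I.Nonempty) (q : ℤ) (hqj : q ≤ j) (hq : q + I.card ≤ d - 2) :
    On (T.Tors m q) U (⋂ k ∈ I, U.ι ⁻¹' E k) := by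
  have hX' : FiniteType X' := h.arithmetic.finiteType
  have hYc : ((U : Set X')ᶜ) = Y := by rw [hUY, compl_compl]
  have hcard : 0 < I.card := hI.card_pos
  have h1 : (⋂ k ∈ I, U.ι ⁻¹' E k) = U.ι ⁻¹' ⋂ k ∈ I, E k := by
    simp only [Set.preimage_iInter]
  have hcl : IsClosed (⋂ k ∈ I, E k) := isClosed_biInter fun k _ => h.closed k
  rw [h1]
  have h2 : On (T.FgAt m q) U (U.ι ⁻¹' ⋂ k ∈ I, E k) := by
    refine on_open (fg_long hT) hX' hcl U ?_ ?_
    · exact (fg_add hT q).on_pieces hX' (h.strata I hI) fun Z _ e he hZ =>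
        ih e (by omega) q hqj (by omega) Z hZ
    · rw [hYc]
      exact (fg_add hT (q - 1)).on_pieces hX' (h.sections I) fun Z _ e he hZ =>
        ih e (by omega) (q - 1) (by omega) (by omega) Z hZ
  have h3 : On (T.Div m q) U (U.ι ⁻¹' ⋂ k ∈ I, E k) := by
    refine (div_add hT q).on_pieces_open hX' (h.strata I hI) U fun Z i e hi he hZ => ?_
    have h4 : IsAffineOpen (i ⁻¹ᵁ U) := hU.preimage i
    exact (hT.artin hZ (Imaginary.of_hom h.imaginary i) (i ⁻¹ᵁ U) h4 m hm q).1 (by omega)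
  intro Z i hi hr x
  have h5 : Subsingleton (T.BM Z m q) := subsingleton_of_divisible (h2 Z i hi hr) (h3 Z i hi hr)
  exact ⟨1, one_pos, Subsingleton.elim _ _⟩

/-- the elements which are zero outside the normal crossings divisor -/
theorem fg_kernel (hm : 0 < m) {X X' : Scheme.{0}} {d : ℕ} {W : Set X} {f : X' ⟶ X} {r : ℕ}
    {E : _root_.Fin r → Set X'}
    {Y : Set X'} (h : IsResolution d W f r E Y)
    {j : ℤ} (ih : ∀ e < d, ∀ q : ℤ, q ≤ j → q + 2 ≤ e → ∀ Z : Scheme.{0}, Arithmetic Z e → T.FgAt m q Z)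
    (hj : j + 3 ≤ d) {O : X'.Opens} (hO : (O : Set X') = (⋃ k, E k)ᶜ) :
    (LinearMap.ker (T.res O.ι m j).toIntLinearMap).FG := by
  have hX' : FiniteType X' := h.arithmetic.finiteType
  obtain ⟨U, hU, hUY⟩ := h.affine
  have hUf : FiniteType U := hX'.of_open U.ι inferInstance
  have hYcl : IsClosed Y := by
    have := (h.sections ∅).isClosed
    simpa using this
  -- the divisor in `U`
  have h1 : On (T.Tors m j) U (⋃ k, U.ι ⁻¹' E k) :=
    on_iUnion (tors_long hT) hUf (fun k => U.ι ⁻¹' E k) (fun k => (h.closed k).preimage U.ι.continuous) (d - 2)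
      j (fun I hI q hqj hq => tors_stratum hT hm h hU hUY ih I hI q hqj hq) (by omega)
  -- the ample divisor
  obtain ⟨R, a, ha, haY⟩ := exists_closed hYcl
  have h2 : T.FgAt m j R := by
    refine (fg_add hT j).on_pieces hX' (h.sections ∅) (fun Z _ e he hZ => ?_) R a ha (by simpa using haY)
    simp only [Finset.card_empty, Nat.cast_zero, sub_zero] at he
    exact ih e (by omega) j le_rfl (by omega) Z hZ
  have hc : IsCompl (Set.range a) (Set.range U.ι) := by
    rw [haY, Scheme.Opens.range_ι, hUY]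
    exact isCompl_compl
  obtain ⟨push, δ, hex⟩ := hT.localization a U.ι hX' ha hc m
  have h2' : Module.Finite ℤ (T.BM R m j) := h2
  have h3 : LinearMap.ker (T.res O.ι m j).toIntLinearMap ≤ LinearMap.range (push j).toIntLinearMap := by
    intro x hx
    have hx0 : T.res O.ι m j x = 0 := hx
    have h4 : T.res U.ι m j x = 0 := by
      have h5 := res_res_eq_zero hT (U := U) hx0
      obtain ⟨D, b, hb, hbE⟩ := exists_closed (X := U) (C := ⋃ k, U.ι ⁻¹' E k)
        (isClosed_iUnion_of_finite fun k => (h.closed k).preimage U.ι.continuous)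
      have hc' : IsCompl (Set.range b) (Set.range (U.ι ⁻¹ᵁ O).ι) := by
        rw [hbE, Scheme.Opens.range_ι]
        have h6 : ((U.ι ⁻¹ᵁ O : U.toScheme.Opens) : Set U) = (⋃ k, U.ι ⁻¹' E k)ᶜ := by
          change U.ι ⁻¹' (O : Set X') = _
          rw [hO, Set.preimage_compl, Set.preimage_iUnion]
        rw [h6]
        exact isCompl_compl
      obtain ⟨push', δ', hex'⟩ := hT.localization b (U.ι ⁻¹ᵁ O).ι hUf hb hc' m
      obtain ⟨y, hy⟩ := ((hex' j).1 _).1 h5
      obtain ⟨N, hN, hNy⟩ := h1 D b hb hbE y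
      apply (hT.artin h.arithmetic h.imaginary U hU m hm j).2 (by omega) N hN
      change N • T.res U.ι m j x = N • (0 : T.BM U m j)
      rw [← hy, ← map_nsmul, hNy, map_zero, smul_zero]
    exact ((hex j).1 x).1 h4
  have h4 : Module.Finite ℤ (LinearMap.range (push j).toIntLinearMap) := inferInstance
  exact Submodule.FG.of_le (Module.Finite.iff_fg.1 h4) h3

/-- the elements which are zero on a nonempty open subscheme -/
theorem fg_open_kernel (hm : 0 < m) (hG : Geometry) {X : Scheme.{0}} {d : ℕ} (hX : Arithmetic X d)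
    {j : ℤ} (ih : ∀ e < d, ∀ q : ℤ, q ≤ j → q + 2 ≤ e → ∀ Z : Scheme.{0}, Arithmetic Z e → T.FgAt m q Z)
    (hj : j + 3 ≤ d) (V : X.Opens) (hV : (V : Set X).Nonempty) :
    (LinearMap.ker (T.res V.ι m j).toIntLinearMap).FG := by
  obtain ⟨X', f, r, E, Y, h, -⟩ := hG.resolution hX (V : Set X)ᶜ V.isOpen.isClosed_compl (by
    intro h1
    obtain ⟨x, hx⟩ := hV
    have h2 : x ∈ ((V : Set X))ᶜ := h1 ▸ Set.mem_univ x
    exact h2 hx)
  let O : X'.Opens := ⟨(⋃ k, E k)ᶜ, (isClosed_iUnion_of_finite h.closed).isOpen_compl⟩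
  have hOV : O ≤ f ⁻¹ᵁ V := by
    intro x hx
    by_contra h1
    exact hx (h.subset h1)
  obtain ⟨N, pull, push, hN, hpp⟩ := hT.alteration f hX h.arithmetic h.surjective m j
  refine fg_of_map _ _ pull push (fg_kernel hT hm h ih hj (O := O) rfl) (fun x hx => ?_) (fun x => (hpp x).1)
    (hT.torsion hX.finiteType m j N hN).1
  exact res_eq_zero hT hOV ((hpp x).2 V hx)

/-- the step for a scheme over the Gaussian integers -/
theorem fg_imaginary (hm : 0 < m) (hG : Geometry) {X : Scheme.{0}} {d : ℕ} (hX : Arithmetic X d)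
    (hXi : Imaginary X)
    {j : ℤ} (ih : ∀ e < d, ∀ q : ℤ, q ≤ j → q + 2 ≤ e → ∀ Z : Scheme.{0}, Arithmetic Z e → T.FgAt m q Z)
    (hj : j + 3 ≤ d) (hj' : j + m < d) : T.FgAt m j X := by
  have hXint := hX.integral
  let ι := {V : X.Opens // IsAffineOpen V ∧ (V : Set X).Nonempty}
  -- every nonempty open subscheme contains a nonempty affine one
  have hex : ∀ O : X.Opens, (O : Set X).Nonempty → ∃ V : ι, V.1 ≤ O := by
    rintro O ⟨x, hx⟩
    obtain ⟨V, hV, hxV, hVO⟩ := exists_isAffineOpen_mem_and_subset (show x ∈ O from hx)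
    exact ⟨⟨V, hV, x, hxV⟩, hVO⟩
  let S : ι → Submodule ℤ (T.BM X m j) := fun V => LinearMap.ker (T.res V.1.ι m j).toIntLinearMap
  have hS : ∀ {V : ι} {x : T.BM X m j}, x ∈ S V ↔ T.res V.1.ι m j x = 0 := fun {V x} => Iff.rfl
  have hne : Nonempty ι := by
    obtain ⟨V, -⟩ := hex ⊤ ⟨Classical.arbitrary X, trivial⟩
    exact ⟨V⟩
  have hinj : ∀ (V : ι) (N : ℕ), 0 < N → ∀ y : T.BM V.1 m j, N • y = 0 → y = 0 := by
    intro V N hN y hy
    apply (hT.artin hX hXi V.1 V.2.1 m hm j).2 hj N hN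
    change N • y = N • (0 : T.BM V.1 m j)
    rw [hy, smul_zero]
  obtain ⟨-, F, hF, hFc⟩ := hT.torsion hX.finiteType m j 2 (by norm_num)
  refine finite_of_directed S ?_ ?_ ?_ ?_ F hF hFc
  · intro V V'
    have h1 : ((V.1 ⊓ V'.1 : X.Opens) : Set X).Nonempty :=
      nonempty_preirreducible_inter V.1.isOpen V'.1.isOpen V.2.2 V'.2.2
    obtain ⟨V'', hV''⟩ := hex _ h1
    exact ⟨V'', fun x hx => res_eq_zero hT (hV''.trans inf_le_left) hx,
      fun x hx => res_eq_zero hT (hV''.trans inf_le_right) hx⟩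
  · intro x
    obtain ⟨N, hN, O, hO, hx⟩ := hT.generic hX m j (by omega) x
    obtain ⟨V, hV⟩ := hex O hO
    refine ⟨V, hinj V N hN _ ?_⟩
    rw [← map_nsmul]
    exact res_eq_zero hT hV hx
  · exact fun V => fg_open_kernel hT hm hG hX ih hj V.1 V.2.2
  · intro V N hN x hx
    refine hinj V N hN _ ?_
    rw [← map_nsmul]
    exact hx

/-- **The inductive step.** -/
theorem fg_step (hm : 0 < m) (hG : Geometry) {X : Scheme.{0}} {d : ℕ} (hX : Arithmetic X d)
    {j : ℤ} (ih : ∀ e < d, ∀ q : ℤ, q ≤ j → q + 2 ≤ e → ∀ Z : Scheme.{0}, Arithmetic Z e → T.FgAt m q Z)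
    (hj : j + 3 ≤ d) (hj' : j + m < d) : T.FgAt m j X := by
  have hXint := hX.integral
  obtain ⟨X', f, r, E, Y, h, -⟩ := hG.resolution hX ∅ isClosed_empty (Set.empty_ne_univ)
  obtain ⟨N, pull, push, hN, hpp⟩ := hT.alteration f hX h.arithmetic h.surjective m j
  exact finite_of_transfer pull push (fg_imaginary hT hm hG h.arithmetic h.imaginary ih hj hj') (fun x => (hpp x).1)
    (hT.torsion hX.finiteType m j N hN).1

/-- reduction to projective schemes -/
theorem fg_of_projective (hG : Geometry) {X : Scheme.{0}} {d : ℕ} (hX : Arithmetic X d) {j : ℤ}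
    (h : ∀ Z : Scheme.{0}, Arithmetic Z d → IsProjective Z → T.FgAt m j Z) : T.FgAt m j X := by
  have hXint := hX.integral
  obtain ⟨X', f, r, E, Y, h1, h2⟩ := hG.resolution hX ∅ isClosed_empty (Set.empty_ne_univ)
  obtain ⟨N, pull, push, hN, hpp⟩ := hT.alteration f hX h1.arithmetic h1.surjective m j
  exact finite_of_transfer pull push (h X' h1.arithmetic h2) (fun x => (hpp x).1)
    (hT.torsion hX.finiteType m j N hN).1

end Pool.Agent.Helper83.BO
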